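import Mathlib
import Pool.Agent.Q102.ErdosGallai

/-!
The exact graphicality threshold `N(k,s,d)` for lists with largest term `k`, smallest term `s` and
gaps at most `d`.
-/

namespace Pool.Agent.Results.MP_5122c5_co.ExactThreshold

open Finset

/-- The nonincreasing list `a_1 ≥ ... ≥ a_n` lies in `L(k,s,d)`. -/
def InL (k s d n : ℕ) (a : Fin n → ℕ) : Prop :=
  Antitone a ∧ (∀ i, a i ≤ k) ∧ (∃ i, a i = k) ∧ (∀ i, s ≤ a i) ∧ (∃ i, a i = s) ∧
    Even (∑ i, a i) ∧ ∀ i j : Fin n, j.val = i.val + 1 → a i - a j ≤ d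

open Classical in
/-- The list `a_1, ..., a_n` is graphic. -/
def Graphic {n : ℕ} (a : Fin n → ℕ) : Prop :=
  ∃ G : SimpleGraph (Fin n), ∀ i, G.degree i = a i

/-- `F_d(x) = x + (x - d) + (x - 2d) + ...` (positive terms only). -/
def F (d x : ℕ) : ℕ := ∑ i ∈ range x, (x - i * d)

/-- `M(k,s,d) = ⌊(k+s+1)²/4⌋ - F_d(⌊(k-s-d)/2⌋) - F_d(⌈(k-s-d)/2⌉)`. -/
def M (k s d : ℕ) : ℕ :=
  (k + s + 1) ^ 2 / 4 - (F d ((k - s - d) / 2) + F d ((k - s - d + 1) / 2))

/-! ### Properties of `F` -/

lemma F_eq {d : ℕ} (hd : 1 ≤ d) {x N : ℕ} (h : x ≤ N) : F d x = ∑ i ∈ range N, (x - i * d) := by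
  unfold F
  apply Finset.sum_subset (Finset.range_mono h)
  intro i _ hi
  rw [Finset.mem_range, not_lt] at hi
  have : i ≤ i * d := Nat.le_mul_of_pos_right i hd
  omega

lemma F_mono {d : ℕ} (hd : 1 ≤ d) {x y : ℕ} (h : x ≤ y) : F d x ≤ F d y := by
  rw [F_eq hd h, F_eq hd (le_refl y)]
  exact Finset.sum_le_sum (fun i _ => by omega)

lemma F_rec {d : ℕ} (hd : 1 ≤ d) (x : ℕ) : F d x = x + F d (x - d) := by
  rcases Nat.eq_zero_or_pos x with rfl | hx
  · simp [F]
  · obtain ⟨m, rfl⟩ : ∃ m, x = m + 1 := ⟨x - 1, by omega⟩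
    have h1 : F d (m + 1 - d) = ∑ i ∈ range m, ((m + 1 - d) - i * d) := F_eq hd (by omega)
    rw [h1]
    unfold F
    rw [Finset.sum_range_succ']
    rw [add_comm]
    congr 1
    · simp
    · apply Finset.sum_congr rfl
      intro i _
      rw [add_mul]; omega

lemma F_convex {d : ℕ} (hd : 1 ≤ d) {x y : ℕ} (h : x ≤ y) :
    F d (x + 1) + F d y ≤ F d x + F d (y + 1) := by
  rw [F_eq hd (show x + 1 ≤ y + 1 by omega), F_eq hd (show y ≤ y + 1 by omega),
    F_eq hd (show x ≤ y + 1 by omega), F_eq hd (le_refl (y + 1)), ← Finset.sum_add_distrib,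
    ← Finset.sum_add_distrib]
  apply Finset.sum_le_sum
  intro i _
  omega

lemma F_bal {d : ℕ} (hd : 1 ≤ d) {x y W : ℕ} (hxy : W ≤ x + y) :
    F d (W / 2) + F d ((W + 1) / 2) ≤ F d x + F d y := by
  wlog hle : x ≤ y with H
  · have := H hd (x := y) (y := x) (W := W) (by omega) (by omega)
    omega
  by_cases hx : W / 2 ≤ x
  · have h1 := F_mono hd hx
    have h2 := F_mono hd (show (W + 1) / 2 ≤ y by omega)
    omega
  · have key : ∀ t x : ℕ, x + t = W / 2 →
        F d (W / 2) + F d (W - W / 2) ≤ F d x + F d (W - x) := by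
      intro t
      induction t with
      | zero => intro x hx; rw [show x = W / 2 by omega]
      | succ t ih =>
        intro x hx
        have h1 := ih (x + 1) (by omega)
        have h2 := F_convex hd (show x ≤ W - (x + 1) by omega)
        have h3 : W - (x + 1) + 1 = W - x := by omega
        rw [h3] at h2
        omega
    have h1 := key (W / 2 - x) x (by omega)
    have h2 := F_mono hd (show W - x ≤ y by omega)
    have h3 : W - W / 2 = (W + 1) / 2 := by omega
    rw [h3] at h1
    omega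

/-! ### Sums over sets of values with bounded gaps -/

lemma lower_ladder {d s : ℕ} (hd : 1 ≤ d) (U : Finset ℕ) (hs : ∀ v ∈ U, s ≤ v)
    (hgap : ∀ v ∈ U, s < v → ∃ w ∈ U, w < v ∧ v ≤ w + d) :
    ∀ l ∈ U, F d (l - s) ≤ ∑ v ∈ U.filter (· ≤ l), (v - s) := by
  intro l
  induction l using Nat.strong_induction_on with
  | _ l ih =>
    intro hl
    rcases (hs l hl).eq_or_lt with h | h
    · rw [← h]; simp [F]
    · obtain ⟨w, hwU, hwl, hlw⟩ := hgap l hl h
      have h1 := ih w hwl hwU
      have hsub : insert l (U.filter (· ≤ w)) ⊆ U.filter (· ≤ l) := by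
        intro z hz
        rcases Finset.mem_insert.mp hz with rfl | hz
        · exact Finset.mem_filter.mpr ⟨hl, le_refl _⟩
        · have := Finset.mem_filter.mp hz
          exact Finset.mem_filter.mpr ⟨this.1, by have := this.2; omega⟩
      have h2 := Finset.sum_le_sum_of_subset (f := fun v => v - s) hsub
      rw [Finset.sum_insert (by simp; intro _; omega)] at h2
      have h3 := F_rec hd (l - s)
      have h4 := F_mono hd (show l - s - d ≤ w - s by omega)
      omega

lemma upper_ladder {d k : ℕ} (hd : 1 ≤ d) (U : Finset ℕ) (hk : ∀ v ∈ U, v ≤ k)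
    (hgap : ∀ v ∈ U, v < k → ∃ w ∈ U, v < w ∧ w ≤ v + d) :
    ∀ t u : ℕ, u + t = k → u ∈ U → F d (k - u) ≤ ∑ v ∈ U.filter (u ≤ ·), (k - v) := by
  intro t
  induction t using Nat.strong_induction_on with
  | _ t ih =>
    intro u hut hu
    rcases (hk u hu).eq_or_lt with h | h
    · rw [h]; simp [F]
    · obtain ⟨w, hwU, huw, hwu⟩ := hgap u hu h
      have hwk := hk w hwU
      have h1 := ih (k - w) (by omega) w (by omega) hwU
      have hsub : insert u (U.filter (w ≤ ·)) ⊆ U.filter (u ≤ ·) := by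
        intro z hz
        rcases Finset.mem_insert.mp hz with rfl | hz
        · exact Finset.mem_filter.mpr ⟨hu, le_refl _⟩
        · have := Finset.mem_filter.mp hz
          exact Finset.mem_filter.mpr ⟨this.1, by have := this.2; omega⟩
      have h2 := Finset.sum_le_sum_of_subset (f := fun v => k - v) hsub
      rw [Finset.sum_insert (by simp; intro _; omega)] at h2
      have h3 := F_rec hd (k - u)
      have h4 := F_mono hd (show k - u - d ≤ k - w by omega)
      omega

/-- the sum of the tent function over a set of values with gaps at most `d` -/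
lemma tent_sum {d s k : ℕ} (hd : 1 ≤ d) (hsk : s < k) (U : Finset ℕ)
    (hs : ∀ v ∈ U, s ≤ v) (hk : ∀ v ∈ U, v ≤ k) (hsU : s ∈ U) (hkU : k ∈ U)
    (hgap : ∀ v ∈ U, s < v → ∃ w ∈ U, w < v ∧ v ≤ w + d) :
    F d ((k - s - d) / 2) + F d ((k - s - d + 1) / 2) ≤ ∑ v ∈ U, min (k - v) (v - s) := by
  have hgap' : ∀ v ∈ U, v < k → ∃ w ∈ U, v < w ∧ w ≤ v + d := by
    intro v hv hvk
    have hne : (U.filter (v < ·)).Nonempty := ⟨k, Finset.mem_filter.mpr ⟨hkU, hvk⟩⟩
    set w := (U.filter (v < ·)).min' hne with hw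
    have hwm := Finset.min'_mem _ hne
    rw [← hw, Finset.mem_filter] at hwm
    obtain ⟨w', hw'U, hw'w, hww'⟩ := hgap w hwm.1 (by have := hs v hv; omega)
    refine ⟨w, hwm.1, hwm.2, ?_⟩
    have : w' ≤ v := by
      by_contra hcon
      have h1 : w' ∈ U.filter (v < ·) := Finset.mem_filter.mpr ⟨hw'U, by omega⟩
      have := Finset.min'_le _ _ h1
      omega
    omega
  have hneL : (U.filter (fun v => 2 * v ≤ k + s)).Nonempty :=
    ⟨s, Finset.mem_filter.mpr ⟨hsU, by omega⟩⟩
  have hneU : (U.filter (fun v => k + s < 2 * v)).Nonempty :=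
    ⟨k, Finset.mem_filter.mpr ⟨hkU, by omega⟩⟩
  set l := (U.filter (fun v => 2 * v ≤ k + s)).max' hneL with hl
  set u := (U.filter (fun v => k + s < 2 * v)).min' hneU with hu
  have hlm := Finset.max'_mem _ hneL
  have hum := Finset.min'_mem _ hneU
  rw [← hl, Finset.mem_filter] at hlm
  rw [← hu, Finset.mem_filter] at hum
  have hul : u ≤ l + d := by
    obtain ⟨w, hwU, hwu, huw⟩ := hgap u hum.1 (by omega)
    have : w ≤ l := by
      apply Finset.le_max'
      rw [Finset.mem_filter]
      refine ⟨hwU, ?_⟩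
      by_contra hcon
      have h1 : w ∈ U.filter (fun v => k + s < 2 * v) := Finset.mem_filter.mpr ⟨hwU, by omega⟩
      have := Finset.min'_le _ _ h1
      omega
    omega
  have hL := lower_ladder hd U hs hgap l hlm.1
  have hU := upper_ladder hd U hk hgap' (k - u) u (by have := hk u hum.1; omega) hum.1
  have hlu : l < u := by omega
  have hdisj : Disjoint (U.filter (· ≤ l)) (U.filter (u ≤ ·)) := by
    rw [Finset.disjoint_left]
    intro z hz hz'
    have h1 := (Finset.mem_filter.mp hz).2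
    have h2 := (Finset.mem_filter.mp hz').2
    omega
  have hsub : U.filter (· ≤ l) ∪ U.filter (u ≤ ·) ⊆ U := by
    intro z hz
    rcases Finset.mem_union.mp hz with h | h <;> exact (Finset.mem_filter.mp h).1
  have h1 := Finset.sum_le_sum_of_subset (f := fun v => min (k - v) (v - s)) hsub
  rw [Finset.sum_union hdisj] at h1
  have h2 : ∑ v ∈ U.filter (· ≤ l), min (k - v) (v - s) = ∑ v ∈ U.filter (· ≤ l), (v - s) := by
    apply Finset.sum_congr rfl
    intro v hv
    have h := (Finset.mem_filter.mp hv).2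
    apply min_eq_right
    omega
  have h3 : ∑ v ∈ U.filter (u ≤ ·), min (k - v) (v - s) = ∑ v ∈ U.filter (u ≤ ·), (k - v) := by
    apply Finset.sum_congr rfl
    intro v hv
    have h := (Finset.mem_filter.mp hv).2
    apply min_eq_left
    omega
  have h4 := F_bal hd (x := l - s) (y := k - u) (W := k - s - d) (by
    have := hk u hum.1; have := hs l hlm.1; omega)
  omega

/-! ### The clipped part -/

/-- excess of the tent function over the height `ρ` -/
def Hs (k s ρ : ℕ) : ℕ := ∑ v ∈ Icc s k, (min (k - v) (v - s) - ρ)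

lemma Hs_succ (k s ρ : ℕ) : Hs k s ρ = Hs k s (ρ + 1) + (k - ρ - (s + ρ) - 1) := by
  unfold Hs
  have hcard : ((Icc s k).filter (fun v => ρ < min (k - v) (v - s))).card =
      k - ρ - (s + ρ) - 1 := by
    rw [← Nat.card_Ioo]
    congr 1
    ext v
    simp only [Finset.mem_filter, Finset.mem_Icc, Finset.mem_Ioo, lt_min_iff]
    omega
  rw [← hcard, Finset.card_filter, ← Finset.sum_add_distrib]
  apply Finset.sum_congr rfl
  intro v _
  split_ifs <;> omega

lemma Hs_large {k s ρ : ℕ} (h : k ≤ s + 2 * ρ + 1) : Hs k s ρ = 0 := by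
  unfold Hs
  apply Finset.sum_eq_zero
  intro v hv
  rw [Finset.mem_Icc] at hv
  rcases min_choice (k - v) (v - s) with h1 | h1 <;> omega

lemma four_floor (K : ℕ) : (K / 2) * (K - K / 2) = K ^ 2 / 4 := by
  obtain ⟨m, rfl | rfl⟩ := Nat.even_or_odd' K
  · have h1 : 2 * m / 2 = m := by omega
    have h2 : (2 * m) ^ 2 = 4 * (m * m) := by ring
    rw [h1, h2, Nat.mul_div_cancel_left _ (by norm_num)]
    congr 1; omega
  · have h1 : (2 * m + 1) / 2 = m := by omega
    have h2 : (2 * m + 1) ^ 2 = 1 + 4 * (m * (m + 1)) := by ring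
    have h3 : 2 * m + 1 - m = m + 1 := by omega
    rw [h1, h3, h2, Nat.add_mul_div_left _ _ (by norm_num)]
    norm_num

/-- the main numerical inequality -/
lemma clip (k s : ℕ) (hsk : s < k) : ∀ t r : ℕ, s ≤ r → r + t = (k + s + 1) / 2 →
    Hs k s (r - s) + r * (k + s + 1 - r) + t ≤ (k + s + 1) ^ 2 / 4 := by
  intro t
  induction t with
  | zero =>
    intro r hr h
    have h1 : r = (k + s + 1) / 2 := by omega
    rw [Hs_large (by omega), h1, four_floor]
    omega
  | succ t ih =>
    intro r hr h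
    have h1 := ih (r + 1) (by omega) (by omega)
    have h2 := Hs_succ k s (r - s)
    have h3 : r + 1 - s = r - s + 1 := by omega
    rw [h3] at h1
    have h4 : k + s + 1 - (r + 1) = k + s - r := by omega
    have h5 : (r + 1) * (k + s - r) = r * (k + s - r) + (k + s - r) := by ring
    have h6 : k + s + 1 - r = (k + s - r) + 1 := by omega
    have h7 : r * (k + s + 1 - r) = r * (k + s - r) + r := by rw [h6]; ring
    rw [h4, h5] at h1
    rw [h7]
    omega

lemma clip' (k s : ℕ) (hsk : s < k) (r : ℕ) (hr : s ≤ r) (hrk : r ≤ k) :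
    Hs k s (r - s) + r * (k + s + 1 - r) + ((k + s + 1) / 2 - r) ≤ (k + s + 1) ^ 2 / 4 := by
  by_cases h : r ≤ (k + s + 1) / 2
  · exact clip k s hsk _ r hr (by omega)
  · rw [Hs_large (by omega), ← four_floor]
    have h1 : (k + s + 1) / 2 - r = 0 := by omega
    rw [h1]
    set K := k + s + 1 with hK
    obtain ⟨c, hc⟩ : ∃ c, r = K / 2 + c := ⟨r - K / 2, by omega⟩
    obtain ⟨e, he⟩ : ∃ e, K - K / 2 = e + c := ⟨K - K / 2 - c, by omega⟩
    have h2 : K - r = e := by omega
    rw [h2, he, hc]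
    have h3 : e ≤ K / 2 := by omega
    nlinarith [Nat.zero_le (c * c), Nat.mul_le_mul_left c h3]

/-- `k s + 2 ≤ M`, in additive form -/
lemma M_large {k s d : ℕ} (hs : 1 ≤ s) (hsk : s < k) (hd : 1 ≤ d) :
    F d ((k - s - d) / 2) + F d ((k - s - d + 1) / 2) + k * s + (k + s + 1) / 2 ≤
      (k + s + 1) ^ 2 / 4 := by
  have h1 := tent_sum hd hsk (Icc s k) (fun v hv => (Finset.mem_Icc.mp hv).1)
    (fun v hv => (Finset.mem_Icc.mp hv).2) (by simp; omega) (by simp; omega) (by
      intro v hv hsv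
      have := Finset.mem_Icc.mp hv
      exact ⟨v - 1, by rw [Finset.mem_Icc]; omega, by omega, by omega⟩)
  have h2 := clip' k s hsk s le_rfl hsk.le
  have h3 : Hs k s (s - s) = ∑ v ∈ Icc s k, min (k - v) (v - s) := by simp [Hs]
  rw [h3] at h2
  have h4 : k + s + 1 - s = k + 1 := by omega
  rw [h4] at h2
  have h5 : s * (k + 1) = k * s + s := by ring
  rw [h5] at h2
  omega

/-! ### The upper bound -/

/-- If the Erdős–Gallai inequality fails for a set `T` of `r` indices, then `n s + 2 ≤ M`. -/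
lemma eg_fail {k s d n : ℕ} (hs : 1 ≤ s) (hsk : s < k) (hd : 1 ≤ d) (a : Fin n → ℕ)
    (hle : ∀ i, a i ≤ k) (hge : ∀ i, s ≤ a i) (hk : ∃ i, a i = k) (hs' : ∃ i, a i = s)
    (hpar : Even (∑ i, a i))
    (hgap : ∀ i, s < a i → ∃ j, a j < a i ∧ a i ≤ a j + d)
    (T : Finset (Fin n)) (hT : 1 ≤ T.card)
    (hfail : T.card * (T.card - 1) + ∑ i ∈ Tᶜ, min (a i) T.card < ∑ i ∈ T, a i) :
    n * s + 2 + (F d ((k - s - d) / 2) + F d ((k - s - d + 1) / 2)) ≤ (k + s + 1) ^ 2 / 4 := by
  classical
  set r := T.card with hr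
  have hTn : r ≤ n := by
    have := Finset.card_le_univ T
    simpa using this
  have hTc : Tᶜ.card = n - r := by rw [Finset.card_compl]; simp [hr]
  have hTk : ∑ i ∈ T, a i ≤ r * k := by
    have := Finset.sum_le_card_nsmul T a k (fun i _ => hle i)
    simpa [hr] using this
  have hrk : r ≤ k := by
    by_contra hcon
    have : r * k ≤ r * (r - 1) := Nat.mul_le_mul_left r (by omega)
    omega
  by_cases hrs : r < s
  · -- then `n ≤ k`
    have h1 : ∑ i ∈ Tᶜ, min (a i) r = (n - r) * r := by
      rw [← hTc, ← smul_eq_mul, ← Finset.sum_const]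
      apply Finset.sum_congr rfl
      intro i _
      exact min_eq_right (by have := hge i; omega)
    rw [h1] at hfail
    have h2 : r * (r - 1) + (n - r) * r = r * (n - 1) := by
      rw [mul_comm (n - r) r, ← mul_add]; congr 1; omega
    rw [h2] at hfail
    have h3 : r * (n - 1) < r * k := lt_of_lt_of_le hfail hTk
    have h4 : n - 1 < k := lt_of_mul_lt_mul_left h3 (Nat.zero_le _)
    have h5 : n * s ≤ k * s := Nat.mul_le_mul_right s (by omega)
    have h6 := M_large hs hsk hd
    omega
  · push Not at hrs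
    -- penalties
    let p : Fin n → ℕ := fun i => if i ∈ T then k - a i else min (a i) r - s
    let w : ℕ → ℕ := fun v => min (min (k - v) (v - s)) (r - s)
    have hpw : ∀ i, w (a i) ≤ p i := by
      intro i
      simp only [w, p]
      have := hle i
      have := hge i
      split_ifs <;> omega
    have hsumT : ∑ i ∈ T, a i + ∑ i ∈ T, p i = r * k := by
      rw [← Finset.sum_add_distrib, hr, ← smul_eq_mul, ← Finset.sum_const]
      apply Finset.sum_congr rfl
      intro i hi
      simp only [p, if_pos hi]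
      have := hle i
      omega
    have hsumTc : ∑ i ∈ Tᶜ, min (a i) r = (n - r) * s + ∑ i ∈ Tᶜ, p i := by
      rw [← hTc, ← smul_eq_mul, ← Finset.sum_const, ← Finset.sum_add_distrib]
      apply Finset.sum_congr rfl
      intro i hi
      have hi' : i ∉ T := Finset.mem_compl.mp hi
      simp only [p, if_neg hi']
      have := hge i
      omega
    have hsumall : ∑ i ∈ T, p i + ∑ i ∈ Tᶜ, p i = ∑ i, p i := Finset.sum_add_sum_compl T p
    -- the set of values
    set U : Finset ℕ := Finset.univ.image a with hU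
    have hfib : ∑ i, p i = ∑ v ∈ U, ∑ i ∈ Finset.univ.filter (fun i => a i = v), p i :=
      (Finset.sum_fiberwise_of_maps_to (fun i _ => Finset.mem_image_of_mem a (Finset.mem_univ i))
        p).symm
    have hfibv : ∀ v ∈ U, w v ≤ ∑ i ∈ Finset.univ.filter (fun i => a i = v), p i := by
      intro v hv
      obtain ⟨i, _, hi⟩ := Finset.mem_image.mp hv
      have h1 : p i ≤ ∑ i ∈ Finset.univ.filter (fun i => a i = v), p i :=
        Finset.single_le_sum (fun _ _ => Nat.zero_le _)
          (Finset.mem_filter.mpr ⟨Finset.mem_univ _, hi⟩)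
      have := hpw i
      rw [hi] at this
      omega
    have hW : ∑ v ∈ U, w v ≤ ∑ i, p i := by
      rw [hfib]; exact Finset.sum_le_sum hfibv
    -- tent sum
    have htent := tent_sum hd hsk U
      (by intro v hv; obtain ⟨i, _, hi⟩ := Finset.mem_image.mp hv; rw [← hi]; exact hge i)
      (by intro v hv; obtain ⟨i, _, hi⟩ := Finset.mem_image.mp hv; rw [← hi]; exact hle i)
      (by obtain ⟨i, hi⟩ := hs'; exact Finset.mem_image.mpr ⟨i, Finset.mem_univ _, hi⟩)
      (by obtain ⟨i, hi⟩ := hk; exact Finset.mem_image.mpr ⟨i, Finset.mem_univ _, hi⟩)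
      (by
        intro v hv hsv
        obtain ⟨i, _, hi⟩ := Finset.mem_image.mp hv
        rw [← hi] at hsv
        obtain ⟨j, hj1, hj2⟩ := hgap i hsv
        exact ⟨a j, Finset.mem_image.mpr ⟨j, Finset.mem_univ _, rfl⟩, by omega, by omega⟩)
    have hclip : ∑ v ∈ U, min (k - v) (v - s) ≤ ∑ v ∈ U, w v + Hs k s (r - s) := by
      have h1 : ∑ v ∈ U, min (k - v) (v - s) =
          ∑ v ∈ U, w v + ∑ v ∈ U, (min (k - v) (v - s) - (r - s)) := by
        rw [← Finset.sum_add_distrib]
        apply Finset.sum_congr rfl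
        intro v _
        simp only [w]
        omega
      rw [h1]
      apply Nat.add_le_add_left
      unfold Hs
      apply Finset.sum_le_sum_of_subset
      intro v hv
      obtain ⟨i, _, hi⟩ := Finset.mem_image.mp hv
      rw [← hi, Finset.mem_Icc]
      exact ⟨hge i, hle i⟩
    have hnum := clip' k s hsk r hrs hrk
    -- identity `r k + r s = r (k+s+1-r) + r (r-1)`
    have hid : r * k + r * s = r * (k + s + 1 - r) + r * (r - 1) := by
      rw [← mul_add, ← mul_add]; congr 1; omega
    have hns : (n - r) * s + r * s = n * s := by rw [← add_mul]; congr 1; omega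
    by_cases hall : ∀ i ∈ Tᶜ, a i ≤ r
    · -- parity
      have h1 : ∑ i ∈ Tᶜ, min (a i) r = ∑ i ∈ Tᶜ, a i :=
        Finset.sum_congr rfl (fun i hi => min_eq_left (hall i hi))
      have h2 : ∑ i ∈ T, a i + ∑ i ∈ Tᶜ, a i = ∑ i, a i := Finset.sum_add_sum_compl T a
      have h3 : Even (r * (r - 1)) := Nat.even_mul_pred_self r
      obtain ⟨e1, he1⟩ := hpar
      obtain ⟨e2, he2⟩ := h3
      omega
    · push Not at hall
      obtain ⟨j, hjT, hj⟩ := hall
      by_cases hr0 : r < (k + s + 1) / 2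
      · omega
      · -- extra penalty at `j`
        have hjT' : j ∉ T := Finset.mem_compl.mp hjT
        have hpj : w (a j) + 1 ≤ p j := by
          simp only [w, p, if_neg hjT']
          have := hle j
          have := hge j
          omega
        have hjU : a j ∈ U := Finset.mem_image_of_mem a (Finset.mem_univ j)
        have hfibj : w (a j) + 1 ≤ ∑ i ∈ Finset.univ.filter (fun i => a i = a j), p i :=
          hpj.trans (Finset.single_le_sum (f := p) (fun _ _ => Nat.zero_le _)
            (Finset.mem_filter.mpr ⟨Finset.mem_univ _, rfl⟩))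
        have hW' : ∑ v ∈ U, w v + 1 ≤ ∑ i, p i := by
          rw [hfib, ← Finset.add_sum_erase U w hjU,
            ← Finset.add_sum_erase U (fun v => ∑ i ∈ Finset.univ.filter (fun i => a i = v), p i) hjU]
          have h1 : ∑ v ∈ U.erase (a j), w v ≤
              ∑ v ∈ U.erase (a j), ∑ i ∈ Finset.univ.filter (fun i => a i = v), p i :=
            Finset.sum_le_sum (fun v hv => hfibv v (Finset.mem_of_mem_erase hv))
          omega
        omega

/-- the gap condition for sorted lists, in terms of values -/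
lemma gap_of_sorted {k s d n : ℕ} {a : Fin n → ℕ} (h : InL k s d n a) :
    ∀ i, s < a i → ∃ j, a j < a i ∧ a i ≤ a j + d := by
  obtain ⟨hanti, -, -, hge, ⟨i0, hi0⟩, -, hcons⟩ := h
  intro i hi
  -- the least index with a smaller value
  have hex : ∃ m : ℕ, ∃ hm : m < n, a ⟨m, hm⟩ < a i := ⟨i0.1, i0.2, by
    have : (⟨i0.1, i0.2⟩ : Fin n) = i0 := rfl
    rw [this, hi0]; exact hi⟩
  classical
  obtain ⟨m, hm, hlt, hmin⟩ : ∃ m : ℕ, ∃ hm : m < n, a ⟨m, hm⟩ < a i ∧
      ∀ m' : ℕ, ∀ hm' : m' < n, m' < m → a i ≤ a ⟨m', hm'⟩ := by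
    obtain ⟨hm, hlt⟩ := Nat.find_spec hex
    refine ⟨Nat.find hex, hm, hlt, ?_⟩
    intro m' hm' hlt'
    have := Nat.find_min hex hlt'
    push Not at this
    exact this hm'
  have hm0 : m ≠ 0 := by
    intro h0
    have h1 : (⟨m, hm⟩ : Fin n) ≤ i := by
      rw [Fin.le_def]; simp [h0]
    have := hanti h1
    omega
  have h1 := hmin (m - 1) (by omega) (by omega)
  have h2 := hcons ⟨m - 1, by omega⟩ ⟨m, hm⟩ (by simp; omega)
  exact ⟨⟨m, hm⟩, hlt, by omega⟩

theorem upper {k s d n : ℕ} (hs : 1 ≤ s) (hsk : s < k) (hd : 1 ≤ d) (a : Fin n → ℕ)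
    (h : InL k s d n a) (hn : (M k s d - 2) / s + 1 ≤ n) : Graphic a := by
  have hgap := gap_of_sorted h
  obtain ⟨hanti, hle, hk, hge, hs', hpar, -⟩ := h
  apply Pool.Agent.Q102.EG.erdos_gallai hanti ?_ hpar
  intro r
  by_contra hcon
  push Not at hcon
  have hc : (Finset.Iic r)ᶜ = Finset.Ioi r := by
    ext x; simp
  have h1 := eg_fail hs hsk hd a hle hge hk hs' hpar hgap (Finset.Iic r)
    (by rw [Fin.card_Iic]; omega) (by rw [hc, Fin.card_Iic]; simpa using hcon)
  have h2 : M k s d - 2 < n * s := by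
    have := Nat.lt_mul_div_succ (M k s d - 2) (show 0 < s by omega)
    have h3 : s * ((M k s d - 2) / s + 1) ≤ n * s := by
      rw [mul_comm]; exact Nat.mul_le_mul_right s hn
    omega
  have h3 := M_large hs hsk hd
  have h4 : M k s d = (k + s + 1) ^ 2 / 4 - (F d ((k - s - d) / 2) + F d ((k - s - d + 1) / 2)) :=
    rfl
  omega


/-! ### The lower bound -/

open Classical in
lemma eg_necessary {n : ℕ} (G : SimpleGraph (Fin n)) (T : Finset (Fin n)) :
    ∑ i ∈ T, G.degree i ≤ T.card * (T.card - 1) + ∑ i ∈ Tᶜ, G.degree i := by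
  have h1 : ∀ i ∈ T, G.degree i ≤ (T.card - 1) + (Tᶜ.filter (fun j => G.Adj i j)).card := by
    intro i hi
    rw [← G.card_neighborFinset_eq_degree]
    have hsub : G.neighborFinset i ⊆ (T.erase i) ∪ (Tᶜ.filter (fun j => G.Adj i j)) := by
      intro j hj
      rw [SimpleGraph.mem_neighborFinset] at hj
      by_cases hjT : j ∈ T
      · exact Finset.mem_union_left _ (Finset.mem_erase.mpr ⟨hj.ne', hjT⟩)
      · exact Finset.mem_union_right _ (Finset.mem_filter.mpr ⟨Finset.mem_compl.mpr hjT, hj⟩)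
    calc _ ≤ _ := Finset.card_le_card hsub
      _ ≤ _ := Finset.card_union_le _ _
      _ = _ := by rw [Finset.card_erase_of_mem hi]
  have h2 : ∑ i ∈ T, (Tᶜ.filter (fun j => G.Adj i j)).card =
      ∑ j ∈ Tᶜ, (T.filter (fun i => G.Adj i j)).card :=
    Finset.sum_card_bipartiteAbove_eq_sum_card_bipartiteBelow (fun i j => G.Adj i j)
  have h3 : ∀ j ∈ Tᶜ, (T.filter (fun i => G.Adj i j)).card ≤ G.degree j := by
    intro j _
    rw [← G.card_neighborFinset_eq_degree]
    apply Finset.card_le_card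
    intro i hi
    rw [SimpleGraph.mem_neighborFinset]
    exact (Finset.mem_filter.mp hi).2.symm
  calc ∑ i ∈ T, G.degree i
      ≤ ∑ i ∈ T, ((T.card - 1) + (Tᶜ.filter (fun j => G.Adj i j)).card) := Finset.sum_le_sum h1
    _ = T.card * (T.card - 1) + ∑ j ∈ Tᶜ, (T.filter (fun i => G.Adj i j)).card := by
        rw [Finset.sum_add_distrib, h2]; simp
    _ ≤ _ := Nat.add_le_add_left (Finset.sum_le_sum h3) _

/-- If the sum is odd, lower the last term equal to `k` by one. -/
lemma parity_fix {k s d n : ℕ} (hsk : s < k) (hd : 1 ≤ d) (b : Fin n → ℕ) (hanti : Antitone b)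
    (hle : ∀ i, b i ≤ k) (hge : ∀ i, s ≤ b i) (hk : ∃ i, b i = k)
    (hs : ∃ i, b i = s) (hcons : ∀ i j : Fin n, j.val = i.val + 1 → b i - b j ≤ d)
    (hodd : ¬ Even (∑ i, b i) → ∃ i0 i1 : Fin n, i0 < i1 ∧ b i0 = k ∧ b i1 = k) :
    ∃ c : Fin n → ℕ, InL k s d n c ∧ (∀ i, c i ≤ b i) ∧
      (∀ T : Finset (Fin n), ∑ i ∈ T, b i ≤ ∑ i ∈ T, c i + 1) ∧
      (Even (∑ i, b i) → c = b) := by
  classical
  by_cases hev : Even (∑ i, b i)
  · exact ⟨b, ⟨hanti, hle, hk, hge, hs, hev, hcons⟩, fun i => le_refl _,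
      fun T => Nat.le_succ _, fun _ => rfl⟩
  · obtain ⟨i0, i1, h01, h0, h1⟩ := hodd hev
    have hne : (Finset.univ.filter (fun i => b i = k)).Nonempty :=
      ⟨i0, Finset.mem_filter.mpr ⟨Finset.mem_univ _, h0⟩⟩
    set j := (Finset.univ.filter (fun i => b i = k)).max' hne with hj
    have hjm := Finset.max'_mem _ hne
    rw [← hj, Finset.mem_filter] at hjm
    have hbj : b j = k := hjm.2
    have hjmax : ∀ i, j < i → b i < k := by
      intro i hi
      rcases (hle i).eq_or_lt with h | h
      · exfalso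
        have h2 : i ∈ Finset.univ.filter (fun i => b i = k) :=
          Finset.mem_filter.mpr ⟨Finset.mem_univ _, h⟩
        have : i ≤ j := Finset.le_max' _ _ h2
        exact absurd hi (not_lt.mpr this)
      · exact h
    have hj2 : i1 ∈ Finset.univ.filter (fun i => b i = k) :=
      Finset.mem_filter.mpr ⟨Finset.mem_univ _, h1⟩
    have hj1 : i1 ≤ j := Finset.le_max' _ _ hj2
    have hij : i0 < j := lt_of_lt_of_le h01 hj1
    let c : Fin n → ℕ := fun i => if i = j then k - 1 else b i
    have hcj : c j = k - 1 := by simp [c]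
    have hcne : ∀ i, i ≠ j → c i = b i := by intro i hi; simp [c, hi]
    have hcle : ∀ i, c i ≤ b i := by
      intro i
      by_cases hi : i = j
      · rw [hi, hcj, hbj]; omega
      · rw [hcne i hi]
    have hsum : ∀ T : Finset (Fin n), ∑ i ∈ T, b i = ∑ i ∈ T, c i + (if j ∈ T then 1 else 0) := by
      intro T
      have h1 : ∀ i, b i = c i + (if i = j then 1 else 0) := by
        intro i
        by_cases hi : i = j
        · rw [hi, hcj, hbj]; simp; omega
        · rw [hcne i hi]; simp [hi]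
      rw [Finset.sum_congr rfl (fun i _ => h1 i), Finset.sum_add_distrib]
      congr 1
      simp
    refine ⟨c, ⟨?_, ?_, ?_, ?_, ?_, ?_, ?_⟩, hcle, ?_, ?_⟩
    · intro i i' hii
      by_cases hi : i = j
      · by_cases hi' : i' = j
        · rw [hi, hi']
        · rw [hi, hcj, hcne i' hi']
          have : j < i' := lt_of_le_of_ne (hi ▸ hii) (Ne.symm hi')
          have := hjmax i' this
          omega
      · rw [hcne i hi]
        exact (hcle i').trans (hanti hii)
    · intro i; exact (hcle i).trans (hle i)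
    · exact ⟨i0, by rw [hcne i0 (ne_of_lt hij)]; exact h0⟩
    · intro i
      by_cases hi : i = j
      · rw [hi, hcj]; omega
      · rw [hcne i hi]; exact hge i
    · obtain ⟨i, hi⟩ := hs
      refine ⟨i, ?_⟩
      rw [hcne i]
      · exact hi
      · intro h; rw [h, hbj] at hi; omega
    · have h1 := hsum Finset.univ
      simp only [Finset.mem_univ, if_true] at h1
      rw [h1] at hev
      rw [Nat.not_even_iff_odd] at hev
      by_contra hcon
      rw [Nat.not_even_iff_odd] at hcon
      obtain ⟨u, hu⟩ := hev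
      obtain ⟨v, hv⟩ := hcon
      omega
    · intro i i' hii
      by_cases hi : i = j
      · have hi' : i' ≠ j := by
          intro h; rw [h, hi] at hii; omega
        rw [hi, hcj, hcne i' hi']
        have := hcons j i' (by rw [hii, hi])
        rw [hbj] at this
        omega
      · rw [hcne i hi]
        by_cases hi' : i' = j
        · rw [hi', hcj]
          have := hle i
          omega
        · rw [hcne i' hi']; exact hcons i i' hii
    · intro T
      rw [hsum T]
      split_ifs <;> omega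
    · intro h; exact absurd h hev

/-- sums over initial segments -/
lemma sum_initial (r m : ℕ) (g : ℕ → ℕ) :
    (∑ i ∈ (Finset.univ : Finset (Fin (r + m))).filter (fun i => i.val < r), g i.val =
      ∑ i ∈ range r, g i) ∧
    (∑ i ∈ ((Finset.univ : Finset (Fin (r + m))).filter (fun i => i.val < r))ᶜ, g i.val =
      ∑ i ∈ range m, g (r + i)) := by
  have hA : ∑ i ∈ (Finset.univ : Finset (Fin (r + m))).filter (fun i => i.val < r), g i.val =
      ∑ i ∈ range r, g i := by
    rw [Finset.sum_filter, Fin.sum_univ_eq_sum_range (fun i => if i < r then g i else 0) (r + m),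
      Finset.sum_range_add]
    have h1 : ∑ x ∈ range r, (if x < r then g x else 0) = ∑ i ∈ range r, g i :=
      Finset.sum_congr rfl (fun i hi => if_pos (Finset.mem_range.mp hi))
    have h2 : ∑ x ∈ range m, (if r + x < r then g (r + x) else 0) = 0 :=
      Finset.sum_eq_zero (fun i _ => if_neg (by omega))
    rw [h1, h2, add_zero]
  refine ⟨hA, ?_⟩
  have h1 := Finset.sum_add_sum_compl
    ((Finset.univ : Finset (Fin (r + m))).filter (fun i => i.val < r)) (fun i => g i.val)
  rw [hA, Fin.sum_univ_eq_sum_range g (r + m), Finset.sum_range_add] at h1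
  omega

lemma card_initial (r m : ℕ) :
    ((Finset.univ : Finset (Fin (r + m))).filter (fun i => i.val < r)).card = r := by
  have := (sum_initial r m (fun _ => 1)).1
  simpa using this

/-- the extremal list, for length at least `k+1` -/
lemma lower_big {k s d n : ℕ} (hs : 1 ≤ s) (hsk : s < k) (hd : 1 ≤ d) (hdk : d ≤ k - s)
    (hn : k + 1 ≤ n)
    (hM : n * s + 2 + (F d ((k - s - d) / 2) + F d ((k - s - d + 1) / 2)) ≤
      (k + s + 1) ^ 2 / 4) :
    ∃ c : Fin n → ℕ, InL k s d n c ∧ ¬ Graphic c := by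
  classical
  set x := (k - s - d) / 2 with hx
  set y := (k - s - d + 1) / 2 with hy
  set r := (k + s + 1) / 2 with hr
  obtain ⟨m, rfl⟩ : ∃ m, n = r + m := ⟨n - r, by omega⟩
  have hxy : x + y + d = k - s := by omega
  have hr2 : 2 ≤ r := by omega
  let g : ℕ → ℕ := fun i => if i < r then k - (x - (r - 1 - i) * d) else s + (y - (i - r) * d)
  let b : Fin (r + m) → ℕ := fun i => g i.val
  have hg1 : ∀ i, i < r → g i = k - (x - (r - 1 - i) * d) := fun i hi => if_pos hi
  have hg2 : ∀ i, g (r + i) = s + (y - i * d) := by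
    intro i
    have h1 : ¬ (r + i < r) := by omega
    have h2 : r + i - r = i := by omega
    simp only [g, if_neg h1, h2]
  have hg2' : ∀ i, r ≤ i → g i = s + (y - (i - r) * d) := by
    intro i hi
    have h1 : ¬ (i < r) := by omega
    simp only [g, if_neg h1]
  have hgk : ∀ i, g i ≤ k := by
    intro i
    by_cases h : i < r
    · rw [hg1 i h]; omega
    · rw [hg2' i (by omega)]; omega
  have hgs : ∀ i, s ≤ g i := by
    intro i
    by_cases h : i < r
    · rw [hg1 i h]; omega
    · rw [hg2' i (by omega)]; omega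
  have hganti : ∀ i j, i ≤ j → g j ≤ g i := by
    intro i j hij
    by_cases h : j < r
    · rw [hg1 i (by omega), hg1 j h]
      have : (r - 1 - j) * d ≤ (r - 1 - i) * d := Nat.mul_le_mul_right d (by omega)
      omega
    · by_cases h' : i < r
      · rw [hg1 i h', hg2' j (by omega)]
        omega
      · rw [hg2' i (by omega), hg2' j (by omega)]
        have : (i - r) * d ≤ (j - r) * d := Nat.mul_le_mul_right d (by omega)
        omega
  have hgcons : ∀ i, g i - g (i + 1) ≤ d := by
    intro i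
    by_cases h : i + 1 < r
    · rw [hg1 i (by omega), hg1 (i + 1) h]
      have h1 : (r - 1 - i) * d = (r - 1 - (i + 1)) * d + d := by
        rw [show r - 1 - i = r - 1 - (i + 1) + 1 by omega]; ring
      omega
    · by_cases h' : i < r
      · rw [hg1 i h', hg2' (i + 1) (by omega)]
        have h1 : r - 1 - i = 0 := by omega
        have h2 : i + 1 - r = 0 := by omega
        rw [h1, h2, Nat.zero_mul]
        omega
      · rw [hg2' i (by omega), hg2' (i + 1) (by omega)]
        have h1 : (i + 1 - r) * d = (i - r) * d + d := by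
          rw [show i + 1 - r = i - r + 1 by omega]; ring
        omega
  have hg0 : g 0 = k := by
    rw [hg1 0 (by omega)]
    have h1 : r - 1 - 0 ≤ (r - 1 - 0) * d := Nat.le_mul_of_pos_right _ hd
    omega
  have hg1' : g 1 = k := by
    rw [hg1 1 (by omega)]
    have h1 : r - 1 - 1 ≤ (r - 1 - 1) * d := Nat.le_mul_of_pos_right _ hd
    omega
  have hglast : g (r + m - 1) = s := by
    rw [hg2' _ (by omega)]
    have h1 : r + m - 1 - r ≤ (r + m - 1 - r) * d := Nat.le_mul_of_pos_right _ hd
    omega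
  have hsumA := (sum_initial r m g).1
  have hsumB := (sum_initial r m g).2
  have hcard := card_initial r m
  set T := (Finset.univ : Finset (Fin (r + m))).filter (fun i => i.val < r) with hT
  have hA : ∑ i ∈ range r, g i + F d x = r * k := by
    have h1 : F d x = ∑ i ∈ range r, (x - (r - 1 - i) * d) := by
      rw [F_eq hd (show x ≤ r by omega), ← Finset.sum_range_reflect]
    rw [h1, ← Finset.sum_add_distrib]
    have h2 : ∑ i ∈ range r, (g i + (x - (r - 1 - i) * d)) = ∑ i ∈ range r, k := by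
      apply Finset.sum_congr rfl
      intro i hi
      rw [hg1 i (Finset.mem_range.mp hi)]
      omega
    rw [h2]; simp
  have hB : ∑ i ∈ range m, g (r + i) = m * s + F d y := by
    rw [F_eq hd (show y ≤ m by omega)]
    have h2 : ∑ i ∈ range m, g (r + i) = ∑ i ∈ range m, (s + (y - i * d)) :=
      Finset.sum_congr rfl (fun i _ => hg2 i)
    rw [h2, Finset.sum_add_distrib]; simp
  have hfl := four_floor (k + s + 1)
  rw [← hr] at hfl
  have hid : r * (k + s + 1 - r) + r * (r - 1) = r * k + r * s := by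
    rw [← mul_add, ← mul_add]; congr 1; omega
  have hns : (r + m) * s = r * s + m * s := by ring
  have htot : ∑ i ∈ T, b i + ∑ i ∈ Tᶜ, b i = ∑ i, b i := Finset.sum_add_sum_compl T b
  obtain ⟨c, hc, hcb, hbc, hceq⟩ := parity_fix (k := k) (s := s) (d := d) hsk hd b
    (fun i j hij => hganti _ _ (Fin.le_def.mp hij)) (fun i => hgk _) (fun i => hgs _)
    ⟨⟨0, by omega⟩, hg0⟩ ⟨⟨r + m - 1, by omega⟩, hglast⟩
    (fun i j hij => by
      have := hgcons i.val
      rw [← hij] at this
      exact this)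
    (fun _ => ⟨⟨0, by omega⟩, ⟨1, by omega⟩, by rw [Fin.lt_def]; simp, hg0, hg1'⟩)
  refine ⟨c, hc, ?_⟩
  rintro ⟨G, hG⟩
  have h1 := eg_necessary G T
  rw [hcard] at h1
  have h2 : ∑ i ∈ T, G.degree i = ∑ i ∈ T, c i := Finset.sum_congr rfl (fun i _ => hG i)
  have h3 : ∑ i ∈ Tᶜ, G.degree i = ∑ i ∈ Tᶜ, c i := Finset.sum_congr rfl (fun i _ => hG i)
  rw [h2, h3] at h1
  have h4 := hbc T
  have h5 : ∑ i ∈ Tᶜ, c i ≤ ∑ i ∈ Tᶜ, b i := Finset.sum_le_sum (fun i _ => hcb i)
  have h6 : ∑ i ∈ T, b i = ∑ i ∈ range r, g i := hsumA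
  have h7 : ∑ i ∈ Tᶜ, b i = ∑ i ∈ range m, g (r + i) := hsumB
  omega

/-- the extremal list, for length `k` -/
lemma lower_k {k s d : ℕ} (hs : 1 ≤ s) (hsk : s < k) (hd : 1 ≤ d)
    (hk2 : s = 1 → k = 3) :
    ∃ c : Fin k → ℕ, InL k s d k c ∧ ¬ Graphic c := by
  classical
  let b : Fin k → ℕ := fun i => k - (i.val + 1 - s)
  have hb : ∀ i : Fin k, b i = k - (i.val + 1 - s) := fun i => rfl
  obtain ⟨c, hc, hcb, hbc, hceq⟩ := parity_fix (k := k) (s := s) (d := d) hsk hd b
    (fun i j hij => by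
      have := Fin.le_def.mp hij
      rw [hb, hb]; omega)
    (fun i => by rw [hb]; omega) (fun i => by rw [hb]; have := i.2; omega)
    ⟨⟨0, by omega⟩, by rw [hb]; simp; omega⟩ ⟨⟨k - 1, by omega⟩, by rw [hb]; simp; omega⟩
    (fun i j hij => by rw [hb, hb]; omega)
    (fun hodd => by
      by_cases h1 : s = 1
      · exfalso
        apply hodd
        have h3 := hk2 h1
        subst h3
        subst h1
        have : ∑ i, b i = 6 := by simp [b, Fin.sum_univ_three]
        rw [this]; decide
      · exact ⟨⟨0, by omega⟩, ⟨1, by omega⟩, by rw [Fin.lt_def]; simp, by rw [hb]; simp; omega,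
          by rw [hb]; simp; omega⟩)
  refine ⟨c, hc, ?_⟩
  rintro ⟨G, hG⟩
  obtain ⟨i, hi⟩ := hc.2.2.1
  have h1 := G.degree_lt_card_verts i
  rw [hG i, hi] at h1
  simp at h1

lemma M_def' (k s d : ℕ) : M k s d =
    (k + s + 1) ^ 2 / 4 - (F d ((k - s - d) / 2) + F d ((k - s - d + 1) / 2)) := rfl

theorem lower {k s d : ℕ} (hs : 1 ≤ s) (hsk : s < k) (hd : 1 ≤ d) (hdk : d ≤ k - s)
    (hne : (k, s) ≠ (2, 1)) :
    ∃ c : Fin ((M k s d - 2) / s) → ℕ, InL k s d _ c ∧ ¬ Graphic c := by
  have hML := M_large hs hsk hd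
  have hMd := M_def' k s d
  have hmul := Nat.div_mul_le_self (M k s d - 2) s
  have hnk : k ≤ (M k s d - 2) / s := by
    rw [Nat.le_div_iff_mul_le (by omega)]
    omega
  rcases hnk.eq_or_lt with h | h
  · -- length `k`
    rw [← h]
    apply lower_k hs hsk hd
    intro hs1
    subst hs1
    rw [Nat.div_one] at h
    have : k ≠ 2 := by intro h2; apply hne; rw [h2]
    rw [Nat.mul_one] at hML
    omega
  · exact lower_big hs hsk hd hdk h (by omega)

/-- **Main theorem.** Let `1 ≤ s < k` and `1 ≤ d ≤ k - s`.  Put `W = k - s - d` and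
`M = ⌊(k+s+1)²/4⌋ - F_d(⌊W/2⌋) - F_d(⌈W/2⌉)`, where `F_d(x) = x + (x-d) + (x-2d) + ...`.
If `(k,s) ≠ (2,1)`, then the graphicality threshold is `N(k,s,d) = ⌊(M-2)/s⌋ + 1`.
If `(k,s) = (2,1)`, then every list in `L(k,s,d)` is graphic. -/
theorem result (k s d : ℕ) (hs : 1 ≤ s) (hsk : s < k) (hd : 1 ≤ d) (hdk : d ≤ k - s) :
    ((k, s) ≠ (2, 1) →
      IsLeast {N : ℕ | ∀ n, N ≤ n → ∀ a : Fin n → ℕ, InL k s d n a → Graphic a}
        ((M k s d - 2) / s + 1)) ∧
    ((k, s) = (2, 1) → ∀ n, ∀ a : Fin n → ℕ, InL k s d n a → Graphic a) := by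
  constructor
  · intro hne
    constructor
    · intro n hn a ha
      exact upper hs hsk hd a ha hn
    · intro N hN
      by_contra hcon
      push Not at hcon
      obtain ⟨c, hc, hnc⟩ := lower hs hsk hd hdk hne
      exact hnc (hN _ (by omega) c hc)
  · intro heq n a ha
    rw [Prod.mk.injEq] at heq
    obtain ⟨rfl, rfl⟩ := heq
    have hd1 : d = 1 := by omega
    subst hd1
    apply upper hs hsk hd a ha
    have hM : (M 2 1 1 - 2) / 1 + 1 = 3 := by decide
    rw [hM]
    by_contra hcon
    push Not at hcon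
    obtain ⟨hanti, hle, ⟨i, hi⟩, hge, ⟨j, hj⟩, hpar, -⟩ := ha
    have hij : i.val ≠ j.val := by
      intro h
      have : i = j := Fin.ext h
      rw [this, hj] at hi
      omega
    have hi2 := i.2
    have hj2 := j.2
    have hn2 : n = 2 := by omega
    subst hn2
    rw [Fin.sum_univ_two] at hpar
    have h0 := hanti (show (0 : Fin 2) ≤ 1 by decide)
    have h01 : a 0 = 2 ∧ a 1 = 1 := by
      have hi' : i = 0 ∨ i = 1 := by omega
      have hj' : j = 0 ∨ j = 1 := by omega
      rcases hi' with rfl | rfl <;> rcases hj' with rfl | rfl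
      · omega
      · exact ⟨hi, hj⟩
      · omega
      · omega
    rw [h01.1, h01.2] at hpar
    exact absurd hpar (by decide)

end Pool.Agent.Results.MP_5122c5_co.ExactThreshold
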